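import Pool.Agent.Helper63.Sey4.Goals

/-!
# SEY4, packet BAL: balanced assignment of time slots
-/

namespace Pool.Agent.Helper17.Sey4

open Finset
open Pool.Agent.Helper63.Sey4

theorem sum_image_le {α β : Type*} [DecidableEq β] (s : Finset α) (f : α → β) (g : β → ℝ)
    (hg : ∀ b, 0 ≤ g b) : ∑ b ∈ s.image f, g b ≤ ∑ a ∈ s, g (f a) := by
  classical
  induction s using Finset.induction_on with
  | empty => simp
  | insert a s ha ih =>
    rw [Finset.image_insert, Finset.sum_insert ha]
    by_cases h : f a ∈ s.image f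
    · rw [Finset.insert_eq_of_mem h]
      linarith [hg (f a)]
    · rw [Finset.sum_insert h]
      linarith

theorem pow_self_le (M : ℕ) : (M : ℝ) ^ M / (M.factorial : ℝ) ≤ 3 ^ M := by
  have h1 := Real.pow_div_factorial_le_exp (M : ℝ) (Nat.cast_nonneg M) M
  have h2 : Real.exp (M : ℝ) = Real.exp 1 ^ M := by
    rw [← Real.exp_nat_mul]; simp
  have h3 : Real.exp 1 ^ M ≤ 3 ^ M :=
    pow_le_pow_left₀ (Real.exp_pos 1).le (by linarith [Real.exp_one_lt_d9]) M
  linarith

theorem term_le (M n T : ℕ) (hT : 1 ≤ T) (h : 22 * (n : ℝ) / T ≤ M) :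
    (T : ℝ) * ((n.choose M : ℝ) * (2 / (T : ℝ)) ^ (M + 1)) ≤ 2 * (3 / 11 : ℝ) ^ M := by
  have hT0 : (0 : ℝ) < T := by exact_mod_cast hT
  have h1 : ((n.choose M : ℕ) : ℝ) ≤ (n : ℝ) ^ M / (M.factorial : ℝ) :=
    Nat.choose_le_pow_div M n
  have h2 : (T : ℝ) * ((n.choose M : ℝ) * (2 / (T : ℝ)) ^ (M + 1)) =
      2 * ((n.choose M : ℝ) * (2 / (T : ℝ)) ^ M) := by
    rw [pow_succ]; field_simp
  rw [h2]
  have h3 : (n.choose M : ℝ) * (2 / (T : ℝ)) ^ M ≤
      (n : ℝ) ^ M / (M.factorial : ℝ) * (2 / (T : ℝ)) ^ M :=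
    mul_le_mul_of_nonneg_right h1 (by positivity)
  have h4 : (n : ℝ) ^ M / (M.factorial : ℝ) * (2 / (T : ℝ)) ^ M =
      (2 * n / T) ^ M / (M.factorial : ℝ) := by
    rw [div_mul_eq_mul_div, ← mul_pow]
    congr 2
    ring
  have h5 : (2 * (n : ℝ) / T) ^ M ≤ ((M : ℝ) / 11) ^ M := by
    apply pow_le_pow_left₀ (by positivity)
    have : 2 * (n : ℝ) / T = (22 * (n : ℝ) / T) / 11 := by ring
    rw [this]
    gcongr
  have h6 : (2 * (n : ℝ) / T) ^ M / (M.factorial : ℝ) ≤ ((M : ℝ) / 11) ^ M / (M.factorial : ℝ) :=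
    div_le_div_of_nonneg_right h5 (by positivity)
  have h7 : ((M : ℝ) / 11) ^ M / (M.factorial : ℝ) =
      (1 / 11 : ℝ) ^ M * ((M : ℝ) ^ M / (M.factorial : ℝ)) := by
    rw [div_pow, one_div, inv_pow]; ring
  have h8 : (1 / 11 : ℝ) ^ M * ((M : ℝ) ^ M / (M.factorial : ℝ)) ≤ (1 / 11 : ℝ) ^ M * 3 ^ M :=
    mul_le_mul_of_nonneg_left (pow_self_le M) (by positivity)
  have h9 : (1 / 11 : ℝ) ^ M * 3 ^ M = (3 / 11 : ℝ) ^ M := by
    rw [← mul_pow]; norm_num
  linarith

theorem geo_le (M k : ℕ) (h : 22 * (3 / 2 : ℝ) ^ k ≤ M) :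
    2 * (3 / 11 : ℝ) ^ M ≤ (1 / 4) * (1 / 2 ^ (k + 1)) := by
  have h1 : (1 : ℝ) + k * (1 / 2) ≤ (1 + 1 / 2) ^ k :=
    one_add_mul_le_pow (by norm_num) k
  have h2 : ((22 + 11 * k : ℕ) : ℝ) ≤ M := by
    push_cast
    have : (1 + 1 / 2 : ℝ) = 3 / 2 := by norm_num
    rw [this] at h1
    linarith
  have h3 : 22 + 11 * k ≤ M := by exact_mod_cast h2
  have h4 : (3 / 11 : ℝ) ^ M ≤ (3 / 11 : ℝ) ^ (22 + 11 * k) :=
    pow_le_pow_of_le_one (by norm_num) (by norm_num) h3
  have h5 : (3 / 11 : ℝ) ^ (22 + 11 * k) = (3 / 11) ^ 22 * ((3 / 11) ^ 11) ^ k := by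
    rw [pow_add, pow_mul]
  have h6 : ((3 / 11 : ℝ) ^ 11) ^ k ≤ (1 / 2) ^ k :=
    pow_le_pow_left₀ (by positivity) (by norm_num) k
  have h7 : (3 / 11 : ℝ) ^ 22 ≤ 1 / 16 := by norm_num
  have h8 : (3 / 11 : ℝ) ^ 22 * ((3 / 11) ^ 11) ^ k ≤ 1 / 16 * (1 / 2) ^ k :=
    mul_le_mul h7 h6 (by positivity) (by norm_num)
  have h9 : (1 / 4 : ℝ) * (1 / 2 ^ (k + 1)) = 2 * (1 / 16 * (1 / 2) ^ k) := by
    rw [pow_succ, one_div_pow]; ring
  rw [h9]
  linarith

theorem card_nr (T : ℕ) (s : Fin T) [DecidablePred fun t : Fin T => Nr T s t] :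
    (univ.filter (fun t : Fin T => Nr T s t)).card ≤ 3 := by
  have hT : 0 < T := s.pos
  have hsub : univ.filter (fun t : Fin T => Nr T s t) ⊆
      {s, ⟨(s.val + 1) % T, Nat.mod_lt _ hT⟩, ⟨(s.val + T - 1) % T, Nat.mod_lt _ hT⟩} := by
    intro t ht
    rw [mem_filter] at ht
    simp only [mem_insert, mem_singleton]
    rcases ht.2 with h | h | h
    · left; exact (Fin.ext h).symm
    · right; left; exact Fin.ext h.symm
    · right; right
      apply Fin.ext
      have ht' := t.isLt
      show t.val = (s.val + T - 1) % T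
      by_cases h1 : t.val + 1 < T
      · rw [Nat.mod_eq_of_lt h1] at h
        rw [← h]
        have : t.val + 1 + T - 1 = t.val + T := by omega
        rw [this, Nat.add_mod_right, Nat.mod_eq_of_lt ht']
      · have h2 : t.val + 1 = T := by omega
        rw [h2, Nat.mod_self] at h
        rw [← h]
        have : 0 + T - 1 = t.val := by omega
        rw [this, Nat.mod_eq_of_lt ht']
  refine (card_le_card hsub).trans ?_
  exact card_le_three

theorem card_with {E : Type*} [DecidableEq E] (F : Finset E) (e : E) (M : ℕ) :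
    ((powersetCard (M + 1) F).filter (fun S => e ∈ S)).card ≤ F.card.choose M := by
  rw [← card_powersetCard]
  apply card_le_card_of_injOn (fun S => S.erase e)
  · intro S hS
    have hS' := mem_filter.mp (mem_coe.mp hS)
    have h1 := mem_powersetCard.mp hS'.1
    apply mem_coe.mpr
    apply mem_powersetCard.mpr
    refine ⟨(erase_subset _ _).trans h1.1, ?_⟩
    rw [card_erase_of_mem hS'.2, h1.2]; rfl
  · intro S hS S' hS' h
    have h1 := (mem_filter.mp (mem_coe.mp hS)).2
    have h2 := (mem_filter.mp (mem_coe.mp hS')).2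
    have h3 : S.erase e = S'.erase e := h
    rw [← insert_erase h1, ← insert_erase h2, h3]

open Classical in
theorem goalBAL : GoalCAN → GoalBAL := by
  intro hC E J _ _ W T w Cf hT hW hrow hcol hirr hdeg
  have hT0 : (0 : ℝ) < T := by exact_mod_cast hT
  have hW0 : (0 : ℝ) < W := by exact_mod_cast hW
  obtain ⟨kk, hkk⟩ : ∃ kk : J → E → ℕ, kk = fun j e => Nat.log 2 (W / w j e) := ⟨_, rfl⟩
  obtain ⟨F, hF⟩ : ∃ F : J → ℕ → Finset E,
    F = fun j k => univ.filter (fun e => 1 ≤ w j e ∧ kk j e = k) := ⟨_, rfl⟩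
  obtain ⟨M, hM⟩ : ∃ M : J → ℕ → ℕ,
    M = fun j k => ⌈22 * ((F j k).card : ℝ) / T + 22 * (3 / 2 : ℝ) ^ k⌉₊ := ⟨_, rfl⟩
  have hmF : ∀ j k e, e ∈ F j k ↔ 1 ≤ w j e ∧ kk j e = k := by
    intro j k e; rw [hF]; simp
  have hwW : ∀ j e, w j e ≤ W := fun j e =>
    (Finset.single_le_sum (f := fun j => w j e) (fun _ _ => Nat.zero_le _) (mem_univ j)).trans
      (hrow e)
  have hk1 : ∀ j e, 1 ≤ w j e → 2 ^ kk j e * w j e ≤ W := by
    intro j e h
    have h1 : W / w j e ≠ 0 := by
      have := Nat.div_pos (hwW j e) h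
      omega
    have h2 : 2 ^ kk j e ≤ W / w j e := by rw [hkk]; exact Nat.pow_log_le_self 2 h1
    exact (Nat.le_div_iff_mul_le h).mp h2
  have hk2 : ∀ j e, 1 ≤ w j e → W < 2 ^ (kk j e + 1) * w j e := by
    intro j e h
    have h2 : W / w j e < 2 ^ (kk j e + 1) := by
      rw [hkk]; exact Nat.lt_pow_succ_log_self (by norm_num) _
    exact (Nat.div_lt_iff_lt_mul h).mp h2
  have hk3 : ∀ j e, kk j e ∈ range (W + 1) := by
    intro j e
    rw [mem_range, hkk]
    have h1 : Nat.log 2 (W / w j e) ≤ W / w j e := Nat.log_le_self 2 _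
    have h2 : W / w j e ≤ W := Nat.div_le_self _ _
    exact Nat.lt_succ_of_le (h1.trans h2)
  have hMa : ∀ j k, 22 * ((F j k).card : ℝ) / T + 22 * (3 / 2 : ℝ) ^ k ≤ M j k := by
    intro j k; rw [hM]; exact Nat.le_ceil _
  have hMb : ∀ j k, (M j k : ℝ) ≤ 22 * ((F j k).card : ℝ) / T + 22 * (3 / 2 : ℝ) ^ k + 1 := by
    intro j k; rw [hM]; exact (Nat.ceil_lt_add_one (by positivity)).le
  have hM1 : ∀ j k, 22 * ((F j k).card : ℝ) / T ≤ M j k := fun j k =>
    le_trans (le_add_of_nonneg_right (by positivity)) (hMa j k)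
  have hM2 : ∀ j k, 22 * (3 / 2 : ℝ) ^ k ≤ M j k := fun j k =>
    le_trans (le_add_of_nonneg_left (by positivity)) (hMa j k)
  -- the bad sets
  obtain ⟨I1, hI1⟩ : ∃ I1 : Finset (E × E × Fin T × Fin T),
    I1 = univ.filter (fun x => Cf x.1 x.2.1 ∧ Nr T x.2.2.1 x.2.2.2) := ⟨_, rfl⟩
  obtain ⟨I2, hI2⟩ : ∃ I2 : Finset (J × ℕ × Fin T × Finset E),
    I2 = (univ ×ˢ range (W + 1) ×ˢ univ ×ˢ univ).filter
      (fun x => x.2.2.2 ∈ powersetCard (M x.1 x.2.1 + 1) (F x.1 x.2.1)) := ⟨_, rfl⟩
  obtain ⟨f1, hf1⟩ : ∃ f1 : E × E × Fin T × Fin T → Finset (E × Fin T),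
    f1 = fun x => {(x.1, x.2.2.1), (x.2.1, x.2.2.2)} := ⟨_, rfl⟩
  obtain ⟨f2, hf2⟩ : ∃ f2 : J × ℕ × Fin T × Finset E → Finset (E × Fin T),
    f2 = fun x => x.2.2.2.image (fun e => (e, x.2.2.1)) := ⟨_, rfl⟩
  have hm2 : ∀ x ∈ I2, x.2.2.2 ⊆ F x.1 x.2.1 ∧ x.2.2.2.card = M x.1 x.2.1 + 1 := by
    intro x hx
    rw [hI2, mem_filter] at hx
    exact mem_powersetCard.mp hx.2
  suffices hex : ∃ τ : E → Fin T, ∀ b ∈ I1.image f1 ∪ I2.image f2, ∃ p ∈ b, τ p.1 ≠ p.2 by
    obtain ⟨τ, hτ⟩ := hex
    refine ⟨τ, ?_, ?_⟩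
    · intro e e' hee hnr
      obtain ⟨p, hp, hne⟩ := hτ (f1 (e, e', τ e, τ e')) (mem_union_left _
        (mem_image_of_mem _ (by rw [hI1, mem_filter]; exact ⟨mem_univ _, hee, hnr⟩)))
      rw [hf1] at hp
      simp only [mem_insert, mem_singleton] at hp
      rcases hp with rfl | rfl
      · exact hne rfl
      · exact hne rfl
    · intro j t
      -- few elements of F j k in the slot
      have hfew : ∀ k ∈ range (W + 1), ((F j k).filter (fun e => τ e = t)).card ≤ M j k := by
        intro k hk
        by_contra hlt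
        push Not at hlt
        obtain ⟨S, hS1, hS2⟩ := exists_subset_card_eq (Nat.succ_le_of_lt hlt)
        have hSF : S ⊆ F j k := hS1.trans (filter_subset _ _)
        obtain ⟨p, hp, hne⟩ := hτ (f2 (j, k, t, S)) (mem_union_right _
          (mem_image_of_mem _ (by
            rw [hI2, mem_filter]
            refine ⟨?_, mem_powersetCard.mpr ⟨hSF, hS2⟩⟩
            simp only [mem_product, mem_univ, true_and, and_true]
            exact hk)))
        rw [hf2] at hp
        obtain ⟨e, he, rfl⟩ := mem_image.mp hp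
        exact hne (mem_filter.mp (hS1 he)).2
      have hreal : ((∑ e ∈ univ.filter (fun e => τ e = t), w j e : ℕ) : ℝ) ≤ 178 * W := by
        have hsplit : ((∑ e ∈ univ.filter (fun e => τ e = t), w j e : ℕ) : ℝ) =
            ∑ k ∈ range (W + 1), ∑ e ∈ (F j k).filter (fun e => τ e = t), (w j e : ℝ) := by
          push_cast
          have h1 : ∀ k, ∑ e ∈ (F j k).filter (fun e => τ e = t), (w j e : ℝ) =
              ∑ e ∈ univ.filter (fun e => τ e = t), if kk j e = k then (w j e : ℝ) else 0 := by
            intro k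
            rw [← sum_filter, filter_filter]
            have h2 : ((F j k).filter (fun e => τ e = t)) ⊆
                (univ.filter (fun e => τ e = t ∧ kk j e = k)) := by
              intro e he
              rw [mem_filter, hmF] at he
              rw [mem_filter]
              exact ⟨mem_univ _, he.2, he.1.2⟩
            apply sum_subset h2
            intro e he1 he2
            rw [mem_filter] at he1 he2
            rw [hmF] at he2
            have : ¬ 1 ≤ w j e := fun h => he2 ⟨⟨h, he1.2.2⟩, he1.2.1⟩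
            have h0 : w j e = 0 := by omega
            rw [h0]; simp
          rw [sum_congr rfl (fun k _ => h1 k), sum_comm]
          apply sum_congr rfl
          intro e _
          rw [sum_ite_eq]
          rw [if_pos (hk3 j e)]
        rw [hsplit]
        have hone : ∀ k ∈ range (W + 1),
            ∑ e ∈ (F j k).filter (fun e => τ e = t), (w j e : ℝ) ≤ M j k * (W / 2 ^ k) := by
          intro k hk
          have h1 : ∀ e ∈ (F j k).filter (fun e => τ e = t), (w j e : ℝ) ≤ W / 2 ^ k := by
            intro e he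
            have he1 := (hmF j k e).mp (mem_filter.mp he).1
            have h2 := hk1 j e he1.1
            rw [he1.2] at h2
            rw [le_div_iff₀ (by positivity), mul_comm]
            exact_mod_cast h2
          have h3 := sum_le_card_nsmul _ _ _ h1
          rw [nsmul_eq_mul] at h3
          refine h3.trans ?_
          apply mul_le_mul_of_nonneg_right _ (by positivity)
          exact_mod_cast hfew k hk
        refine (sum_le_sum hone).trans ?_
        have htwo : ∀ k, (M j k : ℝ) * (W / 2 ^ k) ≤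
            22 / T * ((F j k).card * (W / 2 ^ k)) + 22 * W * (3 / 4) ^ k + W * (1 / 2) ^ k := by
          intro k
          have h1 := mul_le_mul_of_nonneg_right (hMb j k) (show (0 : ℝ) ≤ W / 2 ^ k by positivity)
          refine h1.trans (le_of_eq ?_)
          have h2 : (3 / 4 : ℝ) ^ k = (3 / 2) ^ k * (1 / 2) ^ k := by
            rw [← mul_pow]; norm_num
          rw [h2, one_div_pow]
          ring
        refine (sum_le_sum (fun k _ => htwo k)).trans ?_
        rw [sum_add_distrib, sum_add_distrib, ← mul_sum, ← mul_sum, ← mul_sum]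
        have hA : ∑ k ∈ range (W + 1), ((F j k).card : ℝ) * (W / 2 ^ k) ≤ 4 * W * T := by
          have h1 : ∀ k ∈ range (W + 1), ((F j k).card : ℝ) * (W / 2 ^ k) ≤
              ∑ e, if kk j e = k then 2 * (w j e : ℝ) else 0 := by
            intro k _
            rw [← sum_filter]
            have h2 : ∀ e ∈ F j k, (W : ℝ) / 2 ^ k ≤ 2 * (w j e : ℝ) := by
              intro e he
              have he1 := (hmF j k e).mp he
              have h3 := hk2 j e he1.1
              rw [he1.2] at h3
              rw [div_le_iff₀ (by positivity)]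
              have h4 : (W : ℝ) < 2 ^ (k + 1) * w j e := by exact_mod_cast h3
              rw [pow_succ] at h4
              linarith
            have h3 := card_nsmul_le_sum _ _ _ h2
            rw [nsmul_eq_mul] at h3
            refine h3.trans ?_
            apply sum_le_sum_of_subset_of_nonneg
            · intro e he
              rw [mem_filter]
              exact ⟨mem_univ _, ((hmF j k e).mp he).2⟩
            · intro e _ _
              positivity
          refine (sum_le_sum h1).trans ?_
          rw [sum_comm]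
          have h2 : ∀ e ∈ (univ : Finset E), (∑ k ∈ range (W + 1),
              if kk j e = k then 2 * (w j e : ℝ) else 0) = 2 * (w j e : ℝ) := by
            intro e _
            rw [sum_ite_eq, if_pos (hk3 j e)]
          rw [sum_congr rfl h2, ← mul_sum]
          have h3 : ((∑ e, w j e : ℕ) : ℝ) ≤ ((2 * W * T : ℕ) : ℝ) := by exact_mod_cast hcol j
          push_cast at h3
          linarith
        have hB : ∑ k ∈ range (W + 1), (3 / 4 : ℝ) ^ k ≤ 4 := by
          have h1 := geom_sum_eq (show (3 / 4 : ℝ) ≠ 1 by norm_num) (W + 1)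
          rw [h1]
          have : (0 : ℝ) ≤ (3 / 4) ^ (W + 1) := by positivity
          rw [div_le_iff_of_neg (by norm_num)]
          linarith
        have hCc : ∑ k ∈ range (W + 1), (1 / 2 : ℝ) ^ k ≤ 2 := by
          have h1 := geom_sum_eq (show (1 / 2 : ℝ) ≠ 1 by norm_num) (W + 1)
          rw [h1]
          have : (0 : ℝ) ≤ (1 / 2) ^ (W + 1) := by positivity
          rw [div_le_iff_of_neg (by norm_num)]
          linarith
        have hA' : 22 / (T : ℝ) * ∑ k ∈ range (W + 1), ((F j k).card : ℝ) * (W / 2 ^ k) ≤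
            88 * W := by
          have h1 := mul_le_mul_of_nonneg_left hA (show (0 : ℝ) ≤ 22 / T by positivity)
          refine h1.trans (le_of_eq ?_)
          field_simp
          ring
        have hB' := mul_le_mul_of_nonneg_left hB (show (0 : ℝ) ≤ 22 * W by positivity)
        have hC' := mul_le_mul_of_nonneg_left hCc (show (0 : ℝ) ≤ W by positivity)
        linarith
      have h200 : ((∑ e ∈ univ.filter (fun e => τ e = t), w j e : ℕ) : ℝ) ≤ ((200 * W : ℕ) : ℝ) := by
        refine hreal.trans ?_
        push_cast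
        nlinarith
      exact_mod_cast h200
  apply hC E T (I1.image f1 ∪ I2.image f2) hT
  · -- the bad sets are nonempty and partial assignments
    intro b hb
    rcases mem_union.mp hb with hb | hb
    · obtain ⟨x, hx, rfl⟩ := mem_image.mp hb
      rw [hI1, mem_filter] at hx
      rw [hf1]
      refine ⟨⟨_, mem_insert_self _ _⟩, ?_⟩
      intro p hp q hq hpq
      simp only [mem_insert, mem_singleton] at hp hq
      have hne : x.1 ≠ x.2.1 := fun h => hirr x.1 (by have := hx.2.1; rwa [← h] at this)
      rcases hp with rfl | rfl <;> rcases hq with rfl | rfl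
      · rfl
      · exact absurd hpq hne
      · exact absurd hpq.symm hne
      · rfl
    · obtain ⟨x, hx, rfl⟩ := mem_image.mp hb
      have hx' := hm2 x hx
      rw [hf2]
      refine ⟨?_, ?_⟩
      · apply Finset.Nonempty.image
        rw [← card_pos, hx'.2]
        exact Nat.succ_pos _
      · intro p hp q hq hpq
        obtain ⟨e, _, rfl⟩ := mem_image.mp hp
        obtain ⟨e', _, rfl⟩ := mem_image.mp hq
        have : e = e' := hpq
        rw [this]
  · -- the sum condition
    intro e
    have hg0 : ∀ b : Finset (E × Fin T), 0 ≤ (2 / (T : ℝ)) ^ b.card := fun b => by positivity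
    -- first kind
    have hS1 : ∑ b ∈ (I1.image f1).filter (fun b => ∃ t, (e, t) ∈ b), (2 / (T : ℝ)) ^ b.card ≤
        1 / 4 := by
      obtain ⟨N, hN⟩ : ∃ N : Finset E, N = univ.filter (fun e' => Cf e e' ∨ Cf e' e) := ⟨_, rfl⟩
      obtain ⟨R, hR⟩ : ∃ R : Finset (Fin T × Fin T),
        R = univ.filter (fun x => Nr T x.1 x.2) := ⟨_, rfl⟩
      have hNc : 50 * N.card ≤ T := by
        have := hdeg e
        rw [Nat.card_eq_fintype_card, Fintype.card_subtype] at this
        rw [hN]
        convert this
      have hRc : R.card ≤ T * 3 := by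
        have h1 : R = (univ : Finset (Fin T)).biUnion (fun s =>
            (univ.filter (fun t : Fin T => Nr T s t)).image (fun t => (s, t))) := by
          rw [hR]
          ext x
          simp only [mem_filter, mem_univ, true_and, mem_biUnion, mem_image]
          constructor
          · intro h; exact ⟨x.1, x.2, h, rfl⟩
          · rintro ⟨s, t, h, rfl⟩; exact h
        rw [h1]
        refine card_biUnion_le.trans ?_
        have h2 : ∀ s ∈ (univ : Finset (Fin T)),
            ((univ.filter (fun t : Fin T => Nr T s t)).image (fun t => (s, t))).card ≤ 3 :=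
          fun s _ => card_image_le.trans (card_nr T s)
        refine (sum_le_card_nsmul _ _ _ h2).trans ?_
        simp
      have hsub : (I1.image f1).filter (fun b => ∃ t, (e, t) ∈ b) ⊆
          (N ×ˢ R).image (fun y => ({(e, y.2.1), (y.1, y.2.2)} : Finset (E × Fin T))) := by
        intro b hb
        rw [mem_filter] at hb
        obtain ⟨hb1, t, ht⟩ := hb
        obtain ⟨x, hx, rfl⟩ := mem_image.mp hb1
        rw [hI1, mem_filter] at hx
        rw [hf1] at ht ⊢
        simp only [mem_insert, mem_singleton] at ht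
        rw [mem_image]
        rcases ht with h | h
        · have he : e = x.1 := congrArg Prod.fst h
          refine ⟨(x.2.1, x.2.2.1, x.2.2.2), ?_, ?_⟩
          · rw [mem_product, hN, hR, mem_filter, mem_filter]
            refine ⟨⟨mem_univ _, ?_⟩, mem_univ _, hx.2.2⟩
            left; rw [he]; exact hx.2.1
          · simp only [he]
        · have he : e = x.2.1 := congrArg Prod.fst h
          refine ⟨(x.1, x.2.2.2, x.2.2.1), ?_, ?_⟩
          · rw [mem_product, hN, hR, mem_filter, mem_filter]
            refine ⟨⟨mem_univ _, ?_⟩, mem_univ _, ?_⟩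
            · right; rw [he]; exact hx.2.1
            · rcases hx.2.2 with h' | h' | h'
              · left; exact h'.symm
              · right; right; exact h'
              · right; left; exact h'
          · simp only [he]
            exact pair_comm _ _
      refine (sum_le_sum_of_subset_of_nonneg hsub (fun b _ _ => hg0 b)).trans ?_
      refine (sum_image_le _ _ _ hg0).trans ?_
      have hcard : ∀ y ∈ N ×ˢ R,
          (2 / (T : ℝ)) ^ (({(e, y.2.1), (y.1, y.2.2)} : Finset (E × Fin T)).card) ≤
            4 / (T : ℝ) ^ 2 := by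
        intro y hy
        rw [mem_product, hN, mem_filter] at hy
        have hne : (e, y.2.1) ≠ (y.1, y.2.2) := by
          intro h
          have he : e = y.1 := congrArg Prod.fst h
          rcases hy.1.2 with h' | h'
          · rw [← he] at h'; exact hirr e h'
          · rw [← he] at h'; exact hirr e h'
        rw [card_pair hne, div_pow]
        norm_num
      refine (sum_le_card_nsmul _ _ _ hcard).trans ?_
      rw [nsmul_eq_mul, card_product]
      have h1 : ((N.card * R.card : ℕ) : ℝ) ≤ (T : ℝ) ^ 2 * (3 / 50) := by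
        have h2 : (N.card : ℝ) ≤ T / 50 := by
          rw [le_div_iff₀ (by norm_num)]
          have : ((50 * N.card : ℕ) : ℝ) ≤ T := by exact_mod_cast hNc
          push_cast at this
          linarith
        have h3 : (R.card : ℝ) ≤ T * 3 := by exact_mod_cast hRc
        push_cast
        calc (N.card : ℝ) * R.card ≤ (T / 50) * (T * 3) :=
              mul_le_mul h2 h3 (by positivity) (by positivity)
          _ = (T : ℝ) ^ 2 * (3 / 50) := by ring
      calc ((N.card * R.card : ℕ) : ℝ) * (4 / (T : ℝ) ^ 2)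
          ≤ (T : ℝ) ^ 2 * (3 / 50) * (4 / (T : ℝ) ^ 2) :=
            mul_le_mul_of_nonneg_right h1 (by positivity)
        _ = 12 / 50 := by field_simp; norm_num
        _ ≤ 1 / 4 := by norm_num
    -- second kind
    have hS2 : ∑ b ∈ (I2.image f2).filter (fun b => ∃ t, (e, t) ∈ b), (2 / (T : ℝ)) ^ b.card ≤
        1 / 4 := by
      have hsub : (I2.image f2).filter (fun b => ∃ t, (e, t) ∈ b) ⊆
          (I2.filter (fun x => e ∈ x.2.2.2)).image f2 := by
        intro b hb
        rw [mem_filter] at hb
        obtain ⟨hb1, t, ht⟩ := hb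
        obtain ⟨x, hx, rfl⟩ := mem_image.mp hb1
        refine mem_image_of_mem _ (mem_filter.mpr ⟨hx, ?_⟩)
        rw [hf2] at ht
        obtain ⟨e', he', h⟩ := mem_image.mp ht
        have : e' = e := congrArg Prod.fst h
        rwa [← this]
      refine (sum_le_sum_of_subset_of_nonneg hsub (fun b _ _ => hg0 b)).trans ?_
      refine (sum_image_le _ _ _ hg0).trans ?_
      have hcard : ∀ x ∈ I2.filter (fun x => e ∈ x.2.2.2),
          (2 / (T : ℝ)) ^ (f2 x).card = (2 / (T : ℝ)) ^ (M x.1 x.2.1 + 1) := by
        intro x hx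
        have hx' := hm2 x (mem_filter.mp hx).1
        rw [hf2]
        have hinj : Function.Injective (fun e : E => (e, x.2.2.1)) := by
          intro a b h; exact congrArg Prod.fst h
        show (2 / (T : ℝ)) ^ ((x.2.2.2.image (fun e => (e, x.2.2.1))).card) = _
        rw [card_image_of_injective _ hinj, hx'.2]
      rw [sum_congr rfl hcard]
      have hrew : ∑ x ∈ I2.filter (fun x => e ∈ x.2.2.2), (2 / (T : ℝ)) ^ (M x.1 x.2.1 + 1) =
          ∑ j, ∑ k ∈ range (W + 1), ∑ _t : Fin T,
            ∑ S ∈ (powersetCard (M j k + 1) (F j k)).filter (fun S => e ∈ S),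
              (2 / (T : ℝ)) ^ (M j k + 1) := by
        rw [hI2, filter_filter, sum_filter, sum_product]
        apply sum_congr rfl
        intro j _
        rw [sum_product]
        apply sum_congr rfl
        intro k _
        rw [sum_product]
        apply sum_congr rfl
        intro t _
        rw [← sum_filter]
        apply sum_congr _ (fun _ _ => rfl)
        ext S
        simp only [mem_filter, mem_univ, true_and]
      rw [hrew]
      have hj : ∀ j ∈ (univ : Finset J), ∑ k ∈ range (W + 1), ∑ _t : Fin T,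
            ∑ S ∈ (powersetCard (M j k + 1) (F j k)).filter (fun S => e ∈ S),
              (2 / (T : ℝ)) ^ (M j k + 1) ≤ 1 / 4 * ((w j e : ℝ) / W) := by
        intro j _
        have h1 : ∀ k ∈ range (W + 1), ∑ _t : Fin T,
            ∑ S ∈ (powersetCard (M j k + 1) (F j k)).filter (fun S => e ∈ S),
              (2 / (T : ℝ)) ^ (M j k + 1) ≤
            if kk j e = k then 1 / 4 * ((w j e : ℝ) / W) else 0 := by
          intro k _
          rw [sum_const, sum_const, nsmul_eq_mul, nsmul_eq_mul, card_univ, Fintype.card_fin]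
          by_cases hek : e ∈ F j k
          · have he1 := (hmF j k e).mp hek
            rw [if_pos he1.2]
            have h2 : ((((powersetCard (M j k + 1) (F j k)).filter (fun S => e ∈ S)).card : ℕ) : ℝ)
                ≤ ((F j k).card.choose (M j k) : ℝ) := by
              exact_mod_cast card_with (F j k) e (M j k)
            have h3 : (T : ℝ) * ((((powersetCard (M j k + 1) (F j k)).filter
                (fun S => e ∈ S)).card : ℝ) * (2 / (T : ℝ)) ^ (M j k + 1)) ≤
                (T : ℝ) * (((F j k).card.choose (M j k) : ℝ) * (2 / (T : ℝ)) ^ (M j k + 1)) := by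
              apply mul_le_mul_of_nonneg_left _ hT0.le
              exact mul_le_mul_of_nonneg_right h2 (by positivity)
            have h4 := term_le (M j k) (F j k).card T hT (hM1 j k)
            have h5 := geo_le (M j k) k (hM2 j k)
            have h6 : (1 : ℝ) / 2 ^ (k + 1) ≤ (w j e : ℝ) / W := by
              rw [div_le_div_iff₀ (by positivity) hW0]
              have h7 := hk2 j e he1.1
              rw [he1.2] at h7
              have h8 : (W : ℝ) < 2 ^ (k + 1) * w j e := by exact_mod_cast h7
              linarith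
            linarith
          · have h2 : (powersetCard (M j k + 1) (F j k)).filter (fun S => e ∈ S) = ∅ := by
              rw [filter_eq_empty_iff]
              intro S hS heS
              exact hek ((mem_powersetCard.mp hS).1 heS)
            rw [h2, card_empty]
            simp only [Nat.cast_zero, zero_mul, mul_zero]
            split_ifs
            · positivity
            · exact le_refl _
        refine (sum_le_sum h1).trans ?_
        rw [sum_ite_eq, if_pos (hk3 j e)]
      refine (sum_le_sum hj).trans ?_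
      rw [← mul_sum, ← sum_div]
      have h1 : ((∑ j, w j e : ℕ) : ℝ) ≤ W := by exact_mod_cast hrow e
      push_cast at h1
      have h2 : (∑ j, (w j e : ℝ)) / W ≤ 1 := by
        rw [div_le_one hW0]; exact h1
      linarith
    have hsplit : (I1.image f1 ∪ I2.image f2).filter (fun b => ∃ t, (e, t) ∈ b) =
        (I1.image f1).filter (fun b => ∃ t, (e, t) ∈ b) ∪
        (I2.image f2).filter (fun b => ∃ t, (e, t) ∈ b) := filter_union _ _ _
    have hfin : ∑ b ∈ (I1.image f1 ∪ I2.image f2).filter (fun b => ∃ t, (e, t) ∈ b),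
        (2 / (T : ℝ)) ^ b.card ≤ 1 / 2 := by
      rw [hsplit]
      have h1 := sum_union_inter (s₁ := (I1.image f1).filter (fun b => ∃ t, (e, t) ∈ b))
        (s₂ := (I2.image f2).filter (fun b => ∃ t, (e, t) ∈ b))
        (f := fun b => (2 / (T : ℝ)) ^ b.card)
      have h2 : 0 ≤ ∑ b ∈ (I1.image f1).filter (fun b => ∃ t, (e, t) ∈ b) ∩
        (I2.image f2).filter (fun b => ∃ t, (e, t) ∈ b), (2 / (T : ℝ)) ^ b.card :=
        sum_nonneg (fun b _ => hg0 b)
      linarith
    convert hfin using 2

end Pool.Agent.Helper17.Sey4
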